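import Mathlib
import Pool.Agent.H25D

set_option autoImplicit false

namespace Pool.Agent.Results.MP_3d1c33_an.OnlyRankOneProjections

open Pool.Agent.H25B Pool.Agent.H25D

noncomputable def ev0L : E →L[ℝ] H := ⟨ev0, (cont_ev 0).comp continuous_subtype_val⟩

/-- There is a real Banach space `F`, linearly homeomorphic to `l^2`, on which every bounded linear
projection of norm at most one is the identity or has rank at most one. -/
theorem result :
    ∃ (F : Type) (_ : NormedAddCommGroup F) (_ : NormedSpace ℝ F) (_ : CompleteSpace F),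
      Nonempty (F ≃L[ℝ] lp (fun _ : ℕ => ℝ) 2) ∧
      ∀ v : F →L[ℝ] F, (∀ x, v (v x) = v x) → ‖v‖ ≤ 1 →
        v = ContinuousLinearMap.id ℝ F ∨ Module.rank ℝ (LinearMap.range (v : F →ₗ[ℝ] F)) ≤ 1 := by
  have : CompleteSpace E := E_closed.completeSpace_coe
  refine ⟨E, inferInstance, inferInstance, this, ?_, ?_⟩
  · have hk : LinearMap.ker (ev0L : E →ₗ[ℝ] H) = ⊥ := by
      rw [LinearMap.ker_eq_bot']
      intro z hz
      exact ev_inj z hz
    have hr : LinearMap.range (ev0L : E →ₗ[ℝ] H) = ⊤ := by
      rw [LinearMap.range_eq_top]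
      exact ev0_surj
    exact ⟨ContinuousLinearEquiv.ofBijective ev0L hk hr⟩
  · intro v hv hn
    by_cases hid : v = ContinuousLinearMap.id ℝ E
    · exact Or.inl hid
    · right
      by_contra hc
      rw [not_le] at hc
      have h2 : 2 ≤ Module.rank ℝ (LinearMap.range (v : E →ₗ[ℝ] E)) :=
        Cardinal.two_le_iff_one_lt.mpr hc
      obtain ⟨y, hy⟩ : ∃ y, v y ≠ y := by
        by_contra h
        push Not at h
        exact hid (ContinuousLinearMap.ext h)
      have hx0 : y - v y ≠ 0 := fun h => hy (sub_eq_zero.mp h).symm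
      have hvx : v (y - v y) = 0 := by rw [map_sub, hv, sub_self]
      refine no_strong (LinearMap.range (v : E →ₗ[ℝ] E)) h2 (y - v y) hx0 ?_
      rintro g ⟨w, rfl⟩ α
      have h3 : v (v w + α • (y - v y)) = v w := by
        rw [map_add, map_smul, hvx, smul_zero, add_zero, hv]
      have h4 := v.le_opNorm (v w + α • (y - v y))
      rw [h3] at h4
      calc ‖v w‖ ≤ ‖v‖ * ‖v w + α • (y - v y)‖ := h4
        _ ≤ 1 * ‖v w + α • (y - v y)‖ := mul_le_mul_of_nonneg_right hn (norm_nonneg _)
        _ = ‖v w + α • (y - v y)‖ := one_mul _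

end Pool.Agent.Results.MP_3d1c33_an.OnlyRankOneProjections
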